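import Pool.Agent.TH735.MS.Dim

/-!
# The Möbius exponential sum is small outside sets of small dimension

`F R x = ∑_{n = 1}^R μ(n) e^{2 π i n x}`. The number of intervals of length `2 / R` needed to cover
the points with a large partial sum, the Hausdorff dimension of the set of `t` such that
`|F R| > R ^ θ` at some point of `t + X R` for infinitely many `R`, and the resulting bounds for
almost all `t`, uniformly over `t + X R`.
-/

set_option autoImplicit false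

namespace Pool.Agent.Results.MP_b6b996_nt.SmallExceptionalSets

open Filter Pool.Agent.TH735.MS

/-- `F R x = ∑_{n = 1}^R μ(n) e^{2 π i n x}` -/
noncomputable def F (R : ℕ) (x : ℝ) : ℂ :=
  ∑ n ∈ Finset.Icc 1 R, ((ArithmeticFunction.moebius n : ℤ) : ℂ) *
    Complex.exp (2 * Real.pi * Complex.I * (n : ℂ) * (x : ℂ))

/-- The Möbius function with values in `ℂ` -/
noncomputable def mu (n : ℕ) : ℂ := ((ArithmeticFunction.moebius n : ℤ) : ℂ)

lemma norm_mu (n : ℕ) : ‖mu n‖ ≤ 1 := by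
  unfold mu
  rw [Complex.norm_intCast]
  exact_mod_cast ArithmeticFunction.abs_moebius_le_one

lemma mu_zero : mu 0 = 0 := by simp [mu]

lemma F_eq (R : ℕ) (x : ℝ) : F R x = S mu (R + 1) x := by
  unfold F S
  rw [Finset.sum_range_succ', mu_zero, zero_mul, add_zero]
  rw [← Finset.Ico_add_one_right_eq_Icc, Finset.sum_Ico_eq_sum_range, Nat.add_sub_cancel]
  refine Finset.sum_congr rfl fun n _ => ?_
  rw [add_comm 1 n]
  unfold mu ee
  congr 2
  push_cast
  ring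

lemma F_add_int (R : ℕ) (x : ℝ) (m : ℤ) : F R (x + m) = F R x := by
  rw [F_eq, F_eq, S_add_int]

lemma thin_fractions (κ : ℝ) (hκ : 0 ≤ κ) :
    Thin (fun R => {x | ∃ q b : ℕ, 1 ≤ q ∧ (q : ℝ) ≤ (R : ℝ) ^ κ ∧ b < q ∧ x = (b : ℝ) / q})
      (2 * κ) := by
  classical
  constructor
  · refine ⟨1, ?_⟩
    rintro R hR x ⟨q, b, hq, -, hb, rfl⟩
    have hq0 : (0 : ℝ) < q := by exact_mod_cast hq
    rw [abs_of_nonneg (by positivity), div_le_one hq0]
    exact_mod_cast hb.le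
  · intro ε hε
    refine ⟨((4 : ℝ) ^ κ) ^ 2, fun R hR => ?_⟩
    have hR1 : (1 : ℝ) ≤ R := by exact_mod_cast hR
    set Q : ℕ := ⌊(4 * (R : ℝ)) ^ κ⌋₊ with hQ
    refine ⟨((Finset.Icc 1 Q) ×ˢ (Finset.range Q)).image (fun z => (z.2 : ℝ) / z.1), ?_, ?_⟩
    · have h1 : (((Finset.Icc 1 Q) ×ˢ (Finset.range Q)).image
          (fun z => (z.2 : ℝ) / z.1)).card ≤ Q * Q := by
        refine Finset.card_image_le.trans ?_
        rw [Finset.card_product, Nat.card_Icc, Finset.card_range, Nat.add_sub_cancel]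
      have h2 : (Q : ℝ) ≤ (4 : ℝ) ^ κ * (R : ℝ) ^ κ := by
        rw [← Real.mul_rpow (by norm_num) (by positivity)]
        exact Nat.floor_le (by positivity)
      calc ((((Finset.Icc 1 Q) ×ˢ (Finset.range Q)).image
          (fun z => (z.2 : ℝ) / z.1)).card : ℝ) ≤ (Q : ℝ) * Q := by exact_mod_cast h1
        _ ≤ ((4 : ℝ) ^ κ * (R : ℝ) ^ κ) * ((4 : ℝ) ^ κ * (R : ℝ) ^ κ) :=
            mul_le_mul h2 h2 (Nat.cast_nonneg _) (by positivity)
        _ = ((4 : ℝ) ^ κ) ^ 2 * (R : ℝ) ^ (2 * κ) := by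
            rw [two_mul κ, Real.rpow_add (by linarith)]
            ring
        _ ≤ ((4 : ℝ) ^ κ) ^ 2 * (R : ℝ) ^ (2 * κ + ε) := by
            apply mul_le_mul_of_nonneg_left _ (by positivity)
            exact Real.rpow_le_rpow_of_exponent_le hR1 (by linarith)
    · rintro R' hR' hR4 x ⟨q, b, hq, hqR, hb, rfl⟩
      have hqQ : q ≤ Q := by
        apply Nat.le_floor
        refine hqR.trans ?_
        apply Real.rpow_le_rpow (by positivity) _ hκ
        exact_mod_cast hR4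
      refine ⟨(b : ℝ) / q, ?_, ?_⟩
      · rw [Finset.mem_image]
        refine ⟨(q, b), ?_, rfl⟩
        rw [Finset.mem_product, Finset.mem_Icc, Finset.mem_range]
        exact ⟨⟨hq, hqQ⟩, by omega⟩
      · rw [sub_self, abs_zero]
        positivity

lemma thin_interval (κ : ℝ) (hκ : 0 ≤ κ) (hκ1 : κ ≤ 1) :
    Thin (fun R => {x | |x| ≤ (R : ℝ) ^ (-κ)}) (1 - κ) := by
  classical
  constructor
  · refine ⟨1, ?_⟩
    rintro R hR x hx
    have hR1 : (1 : ℝ) ≤ R := by exact_mod_cast hR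
    exact le_trans hx (Real.rpow_le_one_of_one_le_of_nonpos hR1 (by linarith))
  · intro ε hε
    refine ⟨5, fun R hR => ?_⟩
    have hR1 : (1 : ℝ) ≤ R := by exact_mod_cast hR
    have hR0 : (0 : ℝ) < R := by linarith
    set N : ℕ := ⌊(R : ℝ) ^ (1 - κ)⌋₊ + 1 with hN
    have hN1 : (N : ℝ) ≤ (R : ℝ) ^ (1 - κ) + 1 := by
      rw [hN]
      push_cast
      linarith [Nat.floor_le (Real.rpow_nonneg hR0.le (1 - κ))]
    have h1 : (1 : ℝ) ≤ (R : ℝ) ^ (1 - κ) := Real.one_le_rpow hR1 (by linarith)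
    refine ⟨(Finset.Icc (-(N : ℤ)) N).image (fun j : ℤ => (j : ℝ) / R), ?_, ?_⟩
    · have h2 : ((Finset.Icc (-(N : ℤ)) N).image (fun j : ℤ => (j : ℝ) / R)).card ≤ 2 * N + 1 := by
        refine Finset.card_image_le.trans ?_
        rw [Int.card_Icc]
        omega
      have h3 : (((Finset.Icc (-(N : ℤ)) N).image (fun j : ℤ => (j : ℝ) / R)).card : ℝ)
          ≤ 2 * N + 1 := by exact_mod_cast h2
      have h4 : (R : ℝ) ^ (1 - κ) ≤ (R : ℝ) ^ (1 - κ + ε) :=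
        Real.rpow_le_rpow_of_exponent_le hR1 (by linarith)
      linarith
    · rintro R' hR' hR4 x hx
      have hx1 : |x| ≤ (R : ℝ) ^ (-κ) := by
        refine le_trans hx ?_
        exact Real.rpow_le_rpow_of_nonpos hR0 (by exact_mod_cast hR') (by linarith)
      have hx2 : |x| * R ≤ (R : ℝ) ^ (1 - κ) := by
        calc |x| * R ≤ (R : ℝ) ^ (-κ) * R := mul_le_mul_of_nonneg_right hx1 hR0.le
          _ = (R : ℝ) ^ (1 - κ) := by
              rw [← Real.rpow_add_one hR0.ne']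
              congr 1
              ring
      have hx3 : |x * R| ≤ (R : ℝ) ^ (1 - κ) := by rwa [abs_mul, abs_of_pos hR0]
      have h5 := abs_le.1 hx3
      have h6 : (R : ℝ) ^ (1 - κ) < N := by
        rw [hN]
        push_cast
        exact Nat.lt_floor_add_one _
      have h7 : (⌊x * R⌋ : ℝ) ≤ x * R := Int.floor_le _
      have h8 : x * R < ⌊x * R⌋ + 1 := Int.lt_floor_add_one _
      refine ⟨(⌊x * R⌋ : ℝ) / R, ?_, ?_⟩
      · rw [Finset.mem_image]
        refine ⟨⌊x * R⌋, ?_, rfl⟩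
        rw [Finset.mem_Icc]
        constructor
        · rw [Int.le_floor]
          push_cast
          linarith [h5.1]
        · have : (⌊x * R⌋ : ℝ) ≤ ((N : ℤ) : ℝ) := by
            push_cast
            linarith [h5.2]
          exact_mod_cast this
      · have h9 : x - (⌊x * R⌋ : ℝ) / R = (x * R - ⌊x * R⌋) / R := by field_simp
        rw [h9, abs_of_nonneg (div_nonneg (by linarith) hR0.le)]
        exact div_le_div_of_nonneg_right (by linarith) hR0.le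

theorem result :
    (∀ (R : ℕ) (V : ℝ), 1 ≤ R → 0 < V → ∃ P : Finset ℝ,
      (P.card : ℝ) ≤ 850 * (R * (Real.logb 2 R + 2) / V) ^ 2 ∧
        ∀ x : ℝ, 0 ≤ x → x < 1 → (∃ y ≤ R, V < ‖F y x‖) → ∃ p ∈ P, |x - p| ≤ 1 / R) ∧
    (∀ (X : ℕ → Set ℝ) (d θ : ℝ), 0 ≤ d → Thin X d →
      dimH {t : ℝ | ∃ᶠ R : ℕ in atTop, ∃ x ∈ X R, (R : ℝ) ^ θ < ‖F R (x + t)‖} ≤
        ENNReal.ofReal (2 - 2 * θ + d)) ∧
    (∀ (X : ℕ → Set ℝ) (d ε : ℝ), 0 ≤ d → 0 < ε → Thin X d →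
      ∀ᵐ t : ℝ, ∃ C : ℝ, ∀ R : ℕ, 1 ≤ R → ∀ x ∈ X R,
        ‖F R (x + t)‖ ≤ C * (R : ℝ) ^ ((1 + d) / 2 + ε)) ∧
    (∀ κ ε : ℝ, 0 ≤ κ → 0 < ε → ∀ᵐ t : ℝ, ∃ C : ℝ, ∀ R : ℕ, 1 ≤ R → ∀ (q : ℕ) (b : ℤ),
      1 ≤ q → (q : ℝ) ≤ (R : ℝ) ^ κ → ‖F R (t + b / q)‖ ≤ C * (R : ℝ) ^ (1 / 2 + κ + ε)) ∧
    (∀ κ ε : ℝ, 0 ≤ κ → κ ≤ 1 → 0 < ε → ∀ᵐ t : ℝ, ∃ C : ℝ, ∀ R : ℕ, 1 ≤ R → ∀ x : ℝ,
      |x - t| ≤ (R : ℝ) ^ (-κ) → ‖F R x‖ ≤ C * (R : ℝ) ^ (1 - κ / 2 + ε)) := by
  have hae : ∀ (X : ℕ → Set ℝ) (d ε : ℝ), 0 ≤ d → 0 < ε → Thin X d →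
      ∀ᵐ t : ℝ, ∃ C : ℝ, ∀ R : ℕ, 1 ≤ R → ∀ x ∈ X R,
        ‖F R (x + t)‖ ≤ C * (R : ℝ) ^ ((1 + d) / 2 + ε) := by
    intro X d ε hd hε hX
    simp only [F_eq]
    exact ae_bound mu norm_mu mu_zero X d ε hd hε hX
  refine ⟨?_, ?_, hae, ?_, ?_⟩
  · intro R V hR hV
    classical
    have hR1 : (1 : ℝ) ≤ R := by exact_mod_cast hR
    have hR0 : (0 : ℝ) < R := by linarith
    have hpi := Real.pi_pos
    set K := Nat.log 2 (R + 1) + 1 with hK
    have h1 : R + 1 < 2 ^ K := Nat.lt_pow_succ_log_self (by norm_num) _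
    have h2 : 2 ^ K ≤ 4 * R := by
      have : 2 ^ (Nat.log 2 (R + 1)) ≤ R + 1 := Nat.pow_log_le_self 2 (by omega)
      rw [hK, pow_succ]
      omega
    have hK2 : (K : ℝ) ≤ Real.logb 2 R + 2 := by
      have h3 : ((2 : ℝ) ^ K) ≤ 4 * R := by exact_mod_cast h2
      have h4 : (K : ℝ) ≤ Real.logb 2 (4 * R) := by
        rw [Real.le_logb_iff_rpow_le (by norm_num) (by positivity), Real.rpow_natCast]
        exact h3
      have h5 : Real.logb 2 (4 * R) = Real.logb 2 R + 2 := by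
        rw [Real.logb_mul (by norm_num) hR0.ne']
        have : Real.logb 2 4 = 2 := by
          rw [show (4 : ℝ) = 2 ^ (2 : ℝ) by norm_num, Real.logb_rpow (by norm_num) (by norm_num)]
        rw [this]
        ring
      rw [← h5]
      exact h4
    set W : ℝ := V / (1 + 2 * Real.pi) with hW
    have hW0 : 0 < W := by rw [hW]; positivity
    refine ⟨(Bad mu K W).image (fun r : ℕ => (r : ℝ) / (2 ^ K : ℕ)), ?_, ?_⟩
    · have h3 : (((Bad mu K W).image (fun r : ℕ => (r : ℝ) / (2 ^ K : ℕ))).card : ℝ) ≤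
          ((Bad mu K W).card : ℝ) := by exact_mod_cast Finset.card_image_le
      refine h3.trans ?_
      have h4 := card_bad mu norm_mu K W hW0.le
      have h5 : (4 : ℝ) ^ K ≤ 16 * (R : ℝ) ^ 2 := by
        have h6 : ((2 : ℝ) ^ K) ≤ 4 * R := by exact_mod_cast h2
        calc (4 : ℝ) ^ K = ((2 : ℝ) ^ K) ^ 2 := by
              rw [← pow_mul, mul_comm K 2, pow_mul]
              norm_num
          _ ≤ (4 * R) ^ 2 := pow_le_pow_left₀ (by positivity) h6 2
          _ = 16 * (R : ℝ) ^ 2 := by ring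
      have h6 : (K : ℝ) ^ 2 ≤ (Real.logb 2 R + 2) ^ 2 :=
        pow_le_pow_left₀ (Nat.cast_nonneg _) hK2 2
      have h7 : ((Bad mu K W).card : ℝ) * W ^ 2 ≤ (Real.logb 2 R + 2) ^ 2 * (16 * (R : ℝ) ^ 2) :=
        h4.trans (mul_le_mul h6 h5 (by positivity) (by positivity))
      have h8 : (1 + 2 * Real.pi) ^ 2 * 16 ≤ 850 := by
        have := Real.pi_lt_d4
        nlinarith
      have h9 : ((Bad mu K W).card : ℝ) ≤
          ((Real.logb 2 R + 2) ^ 2 * (16 * (R : ℝ) ^ 2)) / W ^ 2 := by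
        rw [le_div_iff₀ (by positivity)]
        exact h7
      refine h9.trans ?_
      have h10 : ((Real.logb 2 R + 2) ^ 2 * (16 * (R : ℝ) ^ 2)) / W ^ 2 =
          ((1 + 2 * Real.pi) ^ 2 * 16) * (R * (Real.logb 2 R + 2) / V) ^ 2 := by
        rw [hW]
        field_simp
      rw [h10]
      exact mul_le_mul_of_nonneg_right h8 (by positivity)
    · rintro x hx0 hx1 ⟨y, hy, hV⟩
      rw [F_eq] at hV
      have h3 : (1 + 2 * Real.pi) * W < ‖S mu (y + 1) x‖ := by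
        rw [hW, mul_div_cancel₀ _ (by positivity)]
        exact hV
      obtain ⟨r, hr, hxr⟩ := mem_bad mu K (y + 1) (by omega) W x h3
      refine ⟨(r : ℝ) / (2 ^ K : ℕ), Finset.mem_image_of_mem _ hr, ?_⟩
      have h4 : ⌊x⌋ = 0 := by
        rw [Int.floor_eq_zero_iff]
        exact ⟨hx0, hx1⟩
      rw [h4, Int.cast_zero, zero_add] at hxr
      refine hxr.trans ?_
      apply one_div_le_one_div_of_le hR0
      exact_mod_cast (by omega : R ≤ 2 ^ K)
  · intro X d θ hd hX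
    simp only [F_eq]
    exact dim_exc mu norm_mu X d θ hd hX
  · intro κ ε hκ hε
    filter_upwards [hae _ (2 * κ) ε (by positivity) hε (thin_fractions κ hκ)] with t ht
    obtain ⟨C, hC⟩ := ht
    refine ⟨C, fun R hR q b hq hqR => ?_⟩
    have hq0 : (0 : ℝ) < q := by exact_mod_cast hq
    have hqz : (0 : ℤ) < q := by exact_mod_cast hq
    have h1 := hC R hR ((((b % (q : ℤ)).toNat : ℕ) : ℝ) / q)
      ⟨q, (b % (q : ℤ)).toNat, hq, hqR, by
        have := Int.emod_lt_of_pos b hqz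
        have := Int.emod_nonneg b hqz.ne'
        omega, rfl⟩
    have h2 : (((b % (q : ℤ)).toNat : ℕ) : ℝ) = (b : ℝ) - q * ((b / (q : ℤ) : ℤ) : ℝ) := by
      have h3 : (((b % (q : ℤ)).toNat : ℕ) : ℤ) = b - q * (b / (q : ℤ)) := by
        rw [Int.toNat_of_nonneg (Int.emod_nonneg b hqz.ne')]
        exact Int.emod_def b q
      exact_mod_cast h3
    have h3 : t + (b : ℝ) / q =
        ((((b % (q : ℤ)).toNat : ℕ) : ℝ) / q + t) + ((b / (q : ℤ) : ℤ) : ℝ) := by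
      rw [h2]
      field_simp
      ring
    rw [h3, F_add_int]
    refine h1.trans (le_of_eq ?_)
    congr 2
    ring
  · intro κ ε hκ hκ1 hε
    filter_upwards [hae _ (1 - κ) ε (by linarith) hε (thin_interval κ hκ hκ1)] with t ht
    obtain ⟨C, hC⟩ := ht
    refine ⟨C, fun R hR x hx => ?_⟩
    have h1 := hC R hR (x - t) hx
    rw [sub_add_cancel] at h1
    refine h1.trans (le_of_eq ?_)
    congr 2
    ring

end Pool.Agent.Results.MP_b6b996_nt.SmallExceptionalSets
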