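import Pool.Agent.TH949.MS.E

open Filter Topology MeasureTheory

namespace Pool.Agent.Results.MP_b6b996_nt.ZerosEveryCutoff

/-- `F_R(x) = ∑_{n ≤ R} μ(n) e^{2 π i n x}`. -/
noncomputable def moebiusSum (R : ℕ) (x : ℝ) : ℂ :=
  ∑ n ∈ Finset.Icc 1 R, (ArithmeticFunction.moebius n : ℂ) * Complex.exp (2 * Real.pi * Complex.I * n * x)

/-- The norm of `F_R` in `L^p([0,1])`. -/
noncomputable def lpNorm (R : ℕ) (p : ℝ) : ℝ := (∫ x in (0 : ℝ)..1, ‖moebiusSum R x‖ ^ p) ^ (1 / p)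

/-- The constant `β (1 - β) / (200 q² (1 + |ρ|)³)`, `β = Re ρ`. -/
noncomputable def kappa (q : ℕ) (ρ : ℂ) : ℝ :=
  ρ.re * (1 - ρ.re) / (200 * (q : ℝ) ^ 2 * (1 + ‖ρ‖) ^ 3)

/-- (1) For every zero `ρ` of a Dirichlet `L`-function modulo `q` in the critical strip and *every* `R ≥ 1`,
`‖F_R‖_p ≥ (κ/p) R^(Re ρ - 1/p)` for all `1 < p < ∞`, and `‖F_R‖_∞ ≥ (κ/12) R^(Re ρ) / (1 + log R)`, with
`κ = kappa q ρ`.
(2) If `‖F_R‖_∞ ≤ R^(a+ε)` holds, for every `ε > 0`, for arbitrarily large `R`, then no Dirichlet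
`L`-function has a zero with real part `> a`; (3) the same for `L^p`, and real parts `> a + 1/p`.
(4) One value of `R`: for `a ≥ 1/2`, `ε > 0` and each large `R` with `‖F_R‖_∞ ≤ R^a`, no Dirichlet
`L`-function modulo `q` has a zero `s` with `q (1 + |s|) ≤ R^ε` and `a + 5 ε ≤ Re s ≤ 1 - R^(-ε)`. -/
theorem result :
    (∀ (q : ℕ) [NeZero q] (χ : DirichletCharacter ℂ q) (ρ : ℂ), 0 < ρ.re → ρ.re < 1 →
      χ.LFunction ρ = 0 → ∀ R : ℕ, 1 ≤ R →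
        (∀ p : ℝ, 1 < p → kappa q ρ / p * (R : ℝ) ^ (ρ.re - 1 / p) ≤ lpNorm R p) ∧
        ∃ x : ℝ, kappa q ρ / 12 * (R : ℝ) ^ ρ.re / (1 + Real.log R) ≤ ‖moebiusSum R x‖) ∧
    (∀ a : ℝ, (∀ ε : ℝ, 0 < ε → ∃ᶠ R : ℕ in atTop, ∀ x : ℝ, ‖moebiusSum R x‖ ≤ (R : ℝ) ^ (a + ε)) →
      ∀ (q : ℕ) [NeZero q] (χ : DirichletCharacter ℂ q) (s : ℂ), 0 < s.re → a < s.re →
        (χ ≠ 1 ∨ s ≠ 1) → χ.LFunction s ≠ 0) ∧
    (∀ a p : ℝ, 1 < p → (∀ ε : ℝ, 0 < ε → ∃ᶠ R : ℕ in atTop, lpNorm R p ≤ (R : ℝ) ^ (a + ε)) →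
      ∀ (q : ℕ) [NeZero q] (χ : DirichletCharacter ℂ q) (s : ℂ), 0 < s.re → a + 1 / p < s.re →
        (χ ≠ 1 ∨ s ≠ 1) → χ.LFunction s ≠ 0) ∧
    (∀ a ε : ℝ, 1 / 2 ≤ a → 0 < ε → ∃ R₀ : ℕ, ∀ R : ℕ, R₀ ≤ R →
      (∀ x : ℝ, ‖moebiusSum R x‖ ≤ (R : ℝ) ^ a) →
      ∀ (q : ℕ) [NeZero q] (χ : DirichletCharacter ℂ q) (s : ℂ), q * (1 + ‖s‖) ≤ (R : ℝ) ^ ε →
        a + 5 * ε ≤ s.re → s.re ≤ 1 - (R : ℝ) ^ (-ε) → χ.LFunction s ≠ 0) := by
  have hM : ∀ (R : ℕ) (x : ℝ), moebiusSum R x = TH949.MS.FR TH949.MS.mu R x := by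
    intro R x
    unfold moebiusSum TH949.MS.FR TH949.MS.mu TH949.MS.ee
    refine Finset.sum_congr rfl fun n _ => ?_
    congr 2
    push_cast; ring
  have hN : ∀ (R : ℕ) (p : ℝ), lpNorm R p = TH949.MS.Lp TH949.MS.mu R p := by
    intro R p
    unfold lpNorm TH949.MS.Lp
    simp_rw [hM]
  have hlog : ∀ δ : ℝ, 0 < δ → ∀ c : ℝ, 0 < c → ∀ᶠ R : ℕ in atTop,
      1 ≤ R ∧ (1 + Real.log R) < c * (R : ℝ) ^ δ := by
    intro δ hδ c hc
    have h1 : Tendsto (fun x : ℝ => (1 + Real.log x) / x ^ δ) atTop (𝓝 0) := by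
      have h2 : Tendsto (fun x : ℝ => 1 / x ^ δ) atTop (𝓝 0) := by
        have := tendsto_rpow_neg_atTop hδ
        refine this.congr' ?_
        filter_upwards [eventually_gt_atTop 0] with x hx
        rw [Real.rpow_neg hx.le, one_div]
      have h3 : Tendsto (fun x : ℝ => Real.log x / x ^ δ) atTop (𝓝 0) :=
        (isLittleO_log_rpow_atTop hδ).tendsto_div_nhds_zero
      have h4 := h2.add h3
      rw [add_zero] at h4
      refine h4.congr fun x => ?_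
      ring
    have h5 := (h1.comp tendsto_natCast_atTop_atTop).eventually_lt_const hc
    filter_upwards [h5, eventually_ge_atTop 1] with R h6 h7
    refine ⟨h7, ?_⟩
    have hR0 : (0 : ℝ) < R := by exact_mod_cast h7
    simp only [Function.comp] at h6
    rwa [div_lt_iff₀ (by positivity)] at h6
  have hk : ∀ (q : ℕ) (ρ : ℂ), kappa q ρ = TH949.MS.kk q ρ := fun q ρ => rfl
  have hkpos : ∀ (q : ℕ) [NeZero q] (ρ : ℂ), 0 < ρ.re → ρ.re < 1 → 0 < kappa q ρ := by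
    intro q _ ρ h0 h1
    have hq : (0 : ℝ) < q := by exact_mod_cast NeZero.pos q
    have : 0 < 1 - ρ.re := by linarith
    unfold kappa
    positivity
  have part1 : ∀ (q : ℕ) [NeZero q] (χ : DirichletCharacter ℂ q) (ρ : ℂ), 0 < ρ.re → ρ.re < 1 →
      χ.LFunction ρ = 0 → ∀ R : ℕ, 1 ≤ R →
        (∀ p : ℝ, 1 < p → kappa q ρ / p * (R : ℝ) ^ (ρ.re - 1 / p) ≤ lpNorm R p) ∧
        ∃ x : ℝ, kappa q ρ / 12 * (R : ℝ) ^ ρ.re / (1 + Real.log R) ≤ ‖moebiusSum R x‖ := by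
    intro q _ χ ρ hρ hρ1 h0 R hR
    have h : ∀ p : ℝ, 1 < p → TH949.MS.kk q ρ / p * (R : ℝ) ^ (ρ.re - 1 / p) ≤
        TH949.MS.Lp TH949.MS.mu R p := fun p hp => TH949.MS.zero_Lp χ hρ hρ1 h0 R hR hp
    refine ⟨fun p hp => ?_, ?_⟩
    · rw [hN, hk]
      exact h p hp
    · simp_rw [hM, hk]
      exact TH949.MS.sup_lower (by rw [← hk]; exact hkpos q ρ hρ hρ1) hR h
  refine ⟨part1, ?_, ?_, ?_⟩
  · intro a ha q _ χ s hs0 hs hχ h0
    rcases lt_or_ge s.re 1 with h1 | h1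
    · have h := part1 q χ s hs0 h1 h0
      obtain ⟨c, hcdef⟩ : ∃ c, c = kappa q s / 12 := ⟨_, rfl⟩
      have hc : 0 < c := by rw [hcdef]; have := hkpos q s hs0 h1; positivity
      have hck : c ≤ kappa q s := by rw [hcdef]; have := hkpos q s hs0 h1; linarith
      rw [← hcdef] at h
      obtain ⟨R, hR, hR1, hR2⟩ := ((ha ((s.re - a) / 2) (by linarith)).and_eventually
        (hlog ((s.re - a) / 2) (by linarith) c hc)).exists
      obtain ⟨x, hx⟩ := (h R hR1).2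
      have hR0 : (0 : ℝ) < R := by exact_mod_cast hR1
      have hlg : 0 ≤ Real.log R := Real.log_nonneg (by exact_mod_cast hR1)
      have h2 := hx.trans (hR x)
      rw [div_le_iff₀ (by linarith)] at h2
      have h3 : (R : ℝ) ^ (a + (s.re - a) / 2) * (1 + Real.log R) <
          (R : ℝ) ^ (a + (s.re - a) / 2) * (c * (R : ℝ) ^ ((s.re - a) / 2)) :=
        mul_lt_mul_of_pos_left hR2 (by positivity)
      have h4 : (R : ℝ) ^ (a + (s.re - a) / 2) * (c * (R : ℝ) ^ ((s.re - a) / 2)) = c * (R : ℝ) ^ s.re := by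
        rw [mul_left_comm, ← Real.rpow_add hR0]
        congr 2
        ring
      linarith
    · exact DirichletCharacter.LFunction_ne_zero_of_one_le_re χ hχ h1 h0
  · intro a p hp ha q _ χ s hs0 hs hχ h0
    rcases lt_or_ge s.re 1 with h1 | h1
    · have h := part1 q χ s hs0 h1 h0
      obtain ⟨c, hcdef⟩ : ∃ c, c = kappa q s := ⟨_, rfl⟩
      have hc : 0 < c := by rw [hcdef]; exact hkpos q s hs0 h1
      rw [← hcdef] at h
      have hp0 : 0 < p := by linarith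
      obtain ⟨R, hR, hR1, hR2⟩ := ((ha ((s.re - (a + 1 / p)) / 2) (by linarith)).and_eventually
        (hlog ((s.re - (a + 1 / p)) / 2) (by linarith) (c / p) (by positivity))).exists
      have hx := (h R hR1).1 p hp
      have hR0 : (0 : ℝ) < R := by exact_mod_cast hR1
      have hlg : 0 ≤ Real.log R := Real.log_nonneg (by exact_mod_cast hR1)
      have h2 := hx.trans hR
      have h3 : (R : ℝ) ^ (a + (s.re - (a + 1 / p)) / 2) * 1 <
          (R : ℝ) ^ (a + (s.re - (a + 1 / p)) / 2) * (c / p * (R : ℝ) ^ ((s.re - (a + 1 / p)) / 2)) :=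
        mul_lt_mul_of_pos_left (by linarith) (by positivity)
      have h4 : (R : ℝ) ^ (a + (s.re - (a + 1 / p)) / 2) *
          (c / p * (R : ℝ) ^ ((s.re - (a + 1 / p)) / 2)) = c / p * (R : ℝ) ^ (s.re - 1 / p) := by
        rw [mul_left_comm, ← Real.rpow_add hR0]
        congr 2
        ring
      linarith
    · exact DirichletCharacter.LFunction_ne_zero_of_one_le_re χ hχ h1 h0
  · intro a ε ha hε
    have hev : ∀ᶠ R : ℕ in atTop, 1 ≤ R ∧ (1 + Real.log R) < 1 / 4800 * (R : ℝ) ^ ε :=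
      hlog ε hε (1 / 4800) (by norm_num)
    obtain ⟨R₀, hR₀⟩ := eventually_atTop.1 hev
    refine ⟨R₀, fun R hR hF q _ χ s hq hs hs1 h0 => ?_⟩
    obtain ⟨hR1, hR2⟩ := hR₀ R hR
    have hR0 : (0 : ℝ) < R := by exact_mod_cast hR1
    have hRe : 0 < (R : ℝ) ^ (-ε) := by positivity
    have hb0 : 0 < s.re := by linarith
    have hb1 : s.re < 1 := by linarith
    have hlg : 0 ≤ Real.log R := Real.log_nonneg (by exact_mod_cast hR1)
    obtain ⟨x, hx⟩ := (part1 q χ s hb0 hb1 h0 R hR1).2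
    have h1 := hx.trans (hF x)
    rw [div_le_iff₀ (by linarith)] at h1
    have hq1 : (1 : ℝ) ≤ q := by exact_mod_cast NeZero.pos q
    have hn : 0 ≤ ‖s‖ := norm_nonneg s
    have h2 : (q : ℝ) ^ 2 * (1 + ‖s‖) ^ 3 ≤ (R : ℝ) ^ (3 * ε) := by
      calc (q : ℝ) ^ 2 * (1 + ‖s‖) ^ 3 ≤ (q : ℝ) ^ 3 * (1 + ‖s‖) ^ 3 :=
            mul_le_mul_of_nonneg_right (pow_le_pow_right₀ hq1 (by norm_num)) (by positivity)
        _ = (q * (1 + ‖s‖)) ^ 3 := by ring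
        _ ≤ ((R : ℝ) ^ ε) ^ 3 := pow_le_pow_left₀ (by positivity) hq 3
        _ = _ := by
          rw [← Real.rpow_natCast, ← Real.rpow_mul hR0.le]
          congr 1
          push_cast; ring
    have h3 : 1 / 400 * (R : ℝ) ^ (-(4 * ε)) ≤ kappa q s := by
      have e1 : (R : ℝ) ^ (-(4 * ε)) * (R : ℝ) ^ (3 * ε) = (R : ℝ) ^ (-ε) := by
        rw [← Real.rpow_add hR0]; congr 1; ring
      unfold kappa
      rw [le_div_iff₀ (by positivity)]
      calc 1 / 400 * (R : ℝ) ^ (-(4 * ε)) * (200 * (q : ℝ) ^ 2 * (1 + ‖s‖) ^ 3) =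
            1 / 2 * ((R : ℝ) ^ (-(4 * ε)) * ((q : ℝ) ^ 2 * (1 + ‖s‖) ^ 3)) := by ring
        _ ≤ 1 / 2 * ((R : ℝ) ^ (-(4 * ε)) * (R : ℝ) ^ (3 * ε)) := by gcongr
        _ = 1 / 2 * (R : ℝ) ^ (-ε) := by rw [e1]
        _ ≤ s.re * (1 - s.re) := mul_le_mul (by linarith) (by linarith) hRe.le hb0.le
    have h4 : 1 / 4800 * (R : ℝ) ^ (a + ε) ≤ kappa q s / 12 * (R : ℝ) ^ s.re := by
      calc 1 / 4800 * (R : ℝ) ^ (a + ε) = (1 / 400 * (R : ℝ) ^ (-(4 * ε))) / 12 * (R : ℝ) ^ (a + 5 * ε) := by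
            have : (R : ℝ) ^ (a + ε) = (R : ℝ) ^ (-(4 * ε)) * (R : ℝ) ^ (a + 5 * ε) := by
              rw [← Real.rpow_add hR0]; congr 1; ring
            rw [this]; ring
        _ ≤ kappa q s / 12 * (R : ℝ) ^ (a + 5 * ε) :=
          mul_le_mul_of_nonneg_right (div_le_div_of_nonneg_right h3 (by norm_num)) (by positivity)
        _ ≤ kappa q s / 12 * (R : ℝ) ^ s.re := by
          refine mul_le_mul_of_nonneg_left ?_ (by have := hkpos q s hb0 hb1; positivity)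
          exact Real.rpow_le_rpow_of_exponent_le (by exact_mod_cast hR1) hs
    have h5 : (R : ℝ) ^ a * (1 + Real.log R) < (R : ℝ) ^ a * (1 / 4800 * (R : ℝ) ^ ε) :=
      mul_lt_mul_of_pos_left hR2 (by positivity)
    have h6 : (R : ℝ) ^ a * (1 / 4800 * (R : ℝ) ^ ε) = 1 / 4800 * (R : ℝ) ^ (a + ε) := by
      rw [Real.rpow_add hR0]; ring
    linarith

end Pool.Agent.Results.MP_b6b996_nt.ZerosEveryCutoff
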